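import Pool.Agent.Lib.MP_07117b_nt_h93.LocField

/-!
# Elements of `ℚ₃(θ, ω)` inside `PadicAlgCl 3` (row PA1)
-/

namespace Pool.Agent.Arb

open Loc

/-- The elements of `ℚ₃(ω, θ)` in coordinates form a subalgebra. -/
def algF {Ω : Type*} [NormedField Ω] [NormedAlgebra ℚ_[3] Ω] [IsUltrametricDist Ω] (ω θ : Ω)
    (hω : ω ^ 2 + ω + 1 = 0) (hθ : θ ^ 3 = θ + 1) : Subalgebra ℚ_[3] Ω where
  carrier := {x | InF ω θ x}
  mul_mem' hx hy := InF.mul hω hθ hx hy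
  add_mem' hx hy := InF.add hx hy
  algebraMap_mem' c := InF.const ω θ c

theorem mem_algF {θ ω : PadicAlgCl 3} (hθ : θ ^ 3 = θ + 1)
    (hω : ω ^ 2 + ω + 1 = 0) {y : PadicAlgCl 3}
    (hy : y ∈ IntermediateField.adjoin ℚ_[3] {θ, ω}) : InF ω θ y := by
  induction hy using IntermediateField.adjoin_induction with
  | mem x hx =>
    rcases hx with rfl | rfl
    · exact InF.theta _ _
    · exact InF.omega _ _
  | algebraMap x => exact InF.const ω θ x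
  | add x y _ _ hx hy => exact InF.add hx hy
  | mul x y _ _ hx hy => exact InF.mul hω hθ hx hy
  | inv x _ hx =>
    have h : (x : PadicAlgCl 3) ∈ algF ω θ hω hθ := hx
    exact Subalgebra.inv_mem_of_algebraic (A := algF ω θ hω hθ) (x := ⟨x, h⟩)
      (Algebra.IsAlgebraic.isAlgebraic _)

/-- row PA1: elements of `F1 = ℚ_3(θ, ω)` have norm in `3^(ℤ/2)`. -/
theorem f1_val [Fact (Nat.Prime 3)] (θ ω : PadicAlgCl 3) (hθ : θ ^ 3 = θ + 1)
    (hω : ω ^ 2 + ω + 1 = 0) (y : PadicAlgCl 3)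
    (hy : y ∈ IntermediateField.adjoin ℚ_[3] {θ, ω}) (hy0 : y ≠ 0) :
    ∃ n : ℤ, ‖y‖ ^ 2 = (3 : ℝ) ^ n :=
  InF.norm_sq hω hθ (mem_algF hθ hω hy) hy0

/-- row PA1: an integral element `y` of `F1` satisfies `y^27 = y` in the residue field. -/
theorem f1_res [Fact (Nat.Prime 3)] (θ ω : PadicAlgCl 3) (hθ : θ ^ 3 = θ + 1)
    (hω : ω ^ 2 + ω + 1 = 0) (y : PadicAlgCl 3)
    (hy : y ∈ IntermediateField.adjoin ℚ_[3] {θ, ω}) (hy1 : ‖y‖ ≤ 1) :
    ‖y ^ 27 - y‖ < 1 :=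
  InF.frob hω hθ (mem_algF hθ hω hy) hy1

end Pool.Agent.Arb
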