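import Pool.Agent.Lib.MP_07117b_nt_h93.LocOrth

/-!
# The field `ℚ₃(ω, θ)`: coordinates, norms, residue field
-/

set_option linter.unusedSectionVars false

namespace Pool.Agent.Arb.Loc

variable {Ω : Type*} [NormedField Ω] [NormedAlgebra ℚ_[3] Ω] [IsUltrametricDist Ω]

local instance : Fact (Nat.Prime 3) := ⟨Nat.prime_three⟩

/-- The quadratic expressions in `θ`. -/
def InT (θ : Ω) (x : Ω) : Prop :=
  ∃ c0 c1 c2 : ℚ_[3], x = algebraMap ℚ_[3] Ω c0 + algebraMap ℚ_[3] Ω c1 * θ +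
    algebraMap ℚ_[3] Ω c2 * θ ^ 2

theorem InT.add {θ x y : Ω} (hx : InT θ x) (hy : InT θ y) : InT θ (x + y) := by
  obtain ⟨a0, a1, a2, rfl⟩ := hx
  obtain ⟨b0, b1, b2, rfl⟩ := hy
  exact ⟨a0 + b0, a1 + b1, a2 + b2, by simp only [map_add]; ring⟩

theorem InT.smul {θ x : Ω} (c : ℚ_[3]) (hx : InT θ x) : InT θ (algebraMap ℚ_[3] Ω c * x) := by
  obtain ⟨a0, a1, a2, rfl⟩ := hx
  exact ⟨c * a0, c * a1, c * a2, by simp only [map_mul]; ring⟩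

theorem InT.neg {θ x : Ω} (hx : InT θ x) : InT θ (-x) := by
  obtain ⟨a0, a1, a2, rfl⟩ := hx
  exact ⟨-a0, -a1, -a2, by simp only [map_neg]; ring⟩

theorem InT.mul {θ x y : Ω} (hθ : θ ^ 3 = θ + 1) (hx : InT θ x) (hy : InT θ y) :
    InT θ (x * y) := by
  obtain ⟨a0, a1, a2, rfl⟩ := hx
  obtain ⟨b0, b1, b2, rfl⟩ := hy
  refine ⟨a0 * b0 + (a1 * b2 + a2 * b1), a0 * b1 + a1 * b0 + (a1 * b2 + a2 * b1) + a2 * b2,
    a0 * b2 + a1 * b1 + a2 * b0 + a2 * b2, ?_⟩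
  simp only [map_add, map_mul]
  linear_combination ((algebraMap ℚ_[3] Ω a1 * algebraMap ℚ_[3] Ω b2 +
    algebraMap ℚ_[3] Ω a2 * algebraMap ℚ_[3] Ω b1) +
    algebraMap ℚ_[3] Ω a2 * algebraMap ℚ_[3] Ω b2 * θ) * hθ

theorem InT.const (θ : Ω) (c : ℚ_[3]) : InT θ (algebraMap ℚ_[3] Ω c) :=
  ⟨c, 0, 0, by simp⟩

theorem InT.theta (θ : Ω) : InT θ θ := ⟨0, 1, 0, by simp⟩

/-- The elements of `ℚ₃(ω, θ)`, in coordinates; `π = 1 - ω`. -/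
def InF (ω θ : Ω) (x : Ω) : Prop := ∃ A B : Ω, InT θ A ∧ InT θ B ∧ x = A + (1 - ω) * B

theorem InF.add {ω θ x y : Ω} (hx : InF ω θ x) (hy : InF ω θ y) : InF ω θ (x + y) := by
  obtain ⟨A, B, hA, hB, rfl⟩ := hx
  obtain ⟨C, D, hC, hD, rfl⟩ := hy
  exact ⟨A + C, B + D, hA.add hC, hB.add hD, by ring⟩

theorem InF.mul {ω θ x y : Ω} (hω : ω ^ 2 + ω + 1 = 0) (hθ : θ ^ 3 = θ + 1) (hx : InF ω θ x)
    (hy : InF ω θ y) : InF ω θ (x * y) := by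
  obtain ⟨A, B, hA, hB, rfl⟩ := hx
  obtain ⟨C, D, hC, hD, rfl⟩ := hy
  refine ⟨A * C + (algebraMap ℚ_[3] Ω (-3)) * (B * D), A * D + B * C +
    (algebraMap ℚ_[3] Ω 3) * (B * D), (hA.mul hθ hC).add ((hB.mul hθ hD).smul _),
    ((hA.mul hθ hD).add (hB.mul hθ hC)).add ((hB.mul hθ hD).smul _), ?_⟩
  rw [map_neg, map_ofNat]
  linear_combination (B * D) * hω

theorem InF.const (ω θ : Ω) (c : ℚ_[3]) : InF ω θ (algebraMap ℚ_[3] Ω c) :=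
  ⟨algebraMap ℚ_[3] Ω c, 0, InT.const θ c, by simpa using InT.const θ 0, by ring⟩

theorem InF.omega (ω θ : Ω) : InF ω θ ω :=
  ⟨1, -1, by simpa using InT.const θ 1, by simpa using InT.const θ (-1), by ring⟩

theorem InF.theta (ω θ : Ω) : InF ω θ θ :=
  ⟨θ, 0, InT.theta θ, by simpa using InT.const θ 0, by ring⟩

theorem norm_omega {ω : Ω} (hω : ω ^ 2 + ω + 1 = 0) : ‖ω‖ = 1 := by
  have h3 : ω ^ 3 = 1 := by linear_combination (ω - 1) * hω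
  exact norm_eq_one_of_pow (n := 3) (by norm_num) (by rw [h3, norm_one])

/-- `‖1 - ω‖² = 1/3`. -/
theorem norm_pi_sq {ω : Ω} (hω : ω ^ 2 + ω + 1 = 0) : ‖1 - ω‖ ^ 2 = 1 / 3 := by
  have h : (1 - ω) ^ 2 = -(3 * ω) := by linear_combination hω
  rw [← norm_pow, h, norm_neg, norm_mul, norm_three, norm_omega hω, mul_one]

theorem norm_pi_lt {ω : Ω} (hω : ω ^ 2 + ω + 1 = 0) : ‖1 - ω‖ < 1 := by
  have h := norm_pi_sq hω
  nlinarith [norm_nonneg (1 - ω)]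

/-- The norm of an element of `ℚ₃(θ)` is that of an element of `ℚ₃`. -/
theorem InT.norm_eq {θ x : Ω} (hθ : θ ^ 3 = θ + 1) (hx : InT θ x) : ∃ c : ℚ_[3], ‖x‖ = ‖c‖ := by
  obtain ⟨c0, c1, c2, rfl⟩ := hx
  rw [norm_quad hθ]
  rcases max_choice ‖c0‖ (max ‖c1‖ ‖c2‖) with h | h
  · exact ⟨c0, h⟩
  · rcases max_choice ‖c1‖ ‖c2‖ with h' | h'
    · exact ⟨c1, by rw [h, h']⟩
    · exact ⟨c2, by rw [h, h']⟩

theorem padic_norm_zpow {c : ℚ_[3]} (hc : c ≠ 0) : ∃ n : ℤ, ‖c‖ = (3 : ℝ) ^ n :=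
  ⟨-c.valuation, by simpa using Padic.norm_eq_zpow_neg_valuation hc⟩

theorem InT.norm_zpow {θ x : Ω} (hθ : θ ^ 3 = θ + 1) (hx : InT θ x) (h0 : x ≠ 0) :
    ∃ n : ℤ, ‖x‖ = (3 : ℝ) ^ n := by
  obtain ⟨c, hc⟩ := hx.norm_eq hθ
  have hc0 : c ≠ 0 := by
    rintro rfl
    rw [norm_zero] at hc
    exact h0 (norm_eq_zero.1 hc)
  obtain ⟨n, hn⟩ := padic_norm_zpow hc0
  exact ⟨n, by rw [hc, hn]⟩

/-- The two parts of a nonzero element of `ℚ₃(ω, θ)` have different norms. -/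
theorem norm_parts_ne {ω θ A B : Ω} (hω : ω ^ 2 + ω + 1 = 0) (hθ : θ ^ 3 = θ + 1) (hA : InT θ A)
    (hB : InT θ B) (h0 : A ≠ 0 ∨ B ≠ 0) : ‖A‖ ≠ ‖(1 - ω) * B‖ := by
  intro h
  rw [norm_mul] at h
  have hπ := norm_pi_sq hω
  have hπ0 : ‖1 - ω‖ ≠ 0 := by
    intro h'
    rw [h'] at hπ
    norm_num at hπ
  by_cases hA0 : A = 0
  · have hB0 : B ≠ 0 := h0.resolve_left (fun h => h hA0)
    rw [hA0, norm_zero] at h
    rcases mul_eq_zero.1 h.symm with h' | h'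
    · exact hπ0 h'
    · exact hB0 (norm_eq_zero.1 h')
  by_cases hB0 : B = 0
  · rw [hB0, norm_zero, mul_zero] at h
    exact hA0 (norm_eq_zero.1 h)
  obtain ⟨n, hn⟩ := hA.norm_zpow hθ hA0
  obtain ⟨k, hk⟩ := hB.norm_zpow hθ hB0
  have h2 : ‖A‖ ^ 2 = 1 / 3 * ‖B‖ ^ 2 := by rw [h, mul_pow, hπ]
  rw [hn, hk] at h2
  have h3 : (3 : ℝ) ^ (2 * n) = (3 : ℝ) ^ (2 * k - 1) := by
    have e1 : (3 : ℝ) ^ (2 * n) = ((3 : ℝ) ^ n) ^ 2 := by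
      rw [mul_comm, zpow_mul]; norm_cast
    have e2 : (3 : ℝ) ^ (2 * k - 1) = 1 / 3 * ((3 : ℝ) ^ k) ^ 2 := by
      rw [zpow_sub_one₀ (by norm_num), mul_comm 2 k, zpow_mul]
      norm_cast
      ring
    rw [e1, e2, h2]
  have h4 := zpow_right_injective₀ (by norm_num : (0 : ℝ) < 3) (by norm_num) h3
  omega

theorem norm_parts {ω θ A B : Ω} (hω : ω ^ 2 + ω + 1 = 0) (hθ : θ ^ 3 = θ + 1) (hA : InT θ A)
    (hB : InT θ B) : ‖A + (1 - ω) * B‖ = max ‖A‖ ‖(1 - ω) * B‖ := by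
  by_cases h0 : A ≠ 0 ∨ B ≠ 0
  · exact IsUltrametricDist.norm_add_eq_max_of_norm_ne_norm (norm_parts_ne hω hθ hA hB h0)
  · push Not at h0
    rw [h0.1, h0.2]
    simp

/-- The norms of the nonzero elements of `ℚ₃(ω, θ)` are powers of `√3`. -/
theorem InF.norm_sq {ω θ x : Ω} (hω : ω ^ 2 + ω + 1 = 0) (hθ : θ ^ 3 = θ + 1) (hx : InF ω θ x)
    (h0 : x ≠ 0) : ∃ n : ℤ, ‖x‖ ^ 2 = (3 : ℝ) ^ n := by
  obtain ⟨A, B, hA, hB, rfl⟩ := hx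
  have hz : ∀ n : ℤ, ((3 : ℝ) ^ n) ^ 2 = (3 : ℝ) ^ (2 * n) := fun n => by
    rw [mul_comm, zpow_mul]; norm_cast
  rw [norm_parts hω hθ hA hB] at *
  rcases max_choice ‖A‖ ‖(1 - ω) * B‖ with h | h
  · have hA0 : A ≠ 0 := by
      rintro rfl
      have h1 : ‖(1 - ω) * B‖ ≤ 0 := by
        rw [norm_zero] at h
        rw [← h]; exact le_max_right _ _
      have h2 := norm_le_zero_iff.1 h1
      rw [zero_add] at h0
      exact h0 h2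
    obtain ⟨n, hn⟩ := hA.norm_zpow hθ hA0
    exact ⟨2 * n, by rw [h, hn, hz]⟩
  · have hB0 : B ≠ 0 := by
      rintro rfl
      have h1 : ‖A‖ ≤ 0 := by
        rw [mul_zero, norm_zero] at h
        rw [← h]; exact le_max_left _ _
      have h2 := norm_le_zero_iff.1 h1
      rw [mul_zero, add_zero] at h0
      exact h0 h2
    obtain ⟨n, hn⟩ := hB.norm_zpow hθ hB0
    refine ⟨2 * n - 1, ?_⟩
    rw [h, norm_mul, mul_pow, norm_pi_sq hω, hn, hz, zpow_sub_one₀ (by norm_num)]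
    ring

theorem cube_congr {s t : Ω} (hs : ‖s‖ ≤ 1) (ht : ‖t‖ ≤ 1) (hst : ‖s - t‖ < 1) :
    ‖s ^ 3 - t ^ 3‖ < 1 := by
  have e : s ^ 3 - t ^ 3 = (s - t) * (s ^ 2 + s * t + t ^ 2) := by ring
  rw [e]
  exact norm_mul_lt_one hst (norm_add_le' (norm_add_le' (norm_pow_le_one hs 2)
    (norm_mul_le_one hs ht)) (norm_pow_le_one ht 2))

theorem pow27_congr {s t : Ω} (hs : ‖s‖ ≤ 1) (ht : ‖t‖ ≤ 1) (hst : ‖s - t‖ < 1) :
    ‖s ^ 27 - t ^ 27‖ < 1 := by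
  have h := cube_congr (norm_pow_le_one (norm_pow_le_one hs 3) 3)
    (norm_pow_le_one (norm_pow_le_one ht 3) 3)
    (cube_congr (norm_pow_le_one hs 3) (norm_pow_le_one ht 3) (cube_congr hs ht hst))
  rwa [← pow_mul, ← pow_mul, ← pow_mul, ← pow_mul] at h

theorem chain27 {x0 x1 x2 : Ω} (h0 : ‖x0‖ ≤ 1) (h1 : ‖x1‖ ≤ 1) (h2 : ‖x2‖ ≤ 1)
    (s1 : ‖x0 ^ 3 - x1‖ < 1) (s2 : ‖x1 ^ 3 - x2‖ < 1) (s3 : ‖x2 ^ 3 - x0‖ < 1) :
    ‖x0 ^ 27 - x0‖ < 1 := by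
  have u1 := cube_congr (norm_pow_le_one h0 3) h1 s1
  have u2 := cube_congr (norm_pow_le_one (norm_pow_le_one h0 3) 3) (norm_pow_le_one h1 3) u1
  have u3 := cube_congr (norm_pow_le_one h1 3) h2 s2
  have e : x0 ^ 27 = ((x0 ^ 3) ^ 3) ^ 3 := by rw [← pow_mul, ← pow_mul]
  rw [e]
  generalize ((x0 ^ 3) ^ 3) ^ 3 = y0 at *
  generalize (x1 ^ 3) ^ 3 = y1 at *
  generalize x2 ^ 3 = y2 at *
  have k : y0 - x0 = (y0 - y1) + (y1 - y2) + (y2 - x0) := by ring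
  rw [k]
  exact norm_add_lt (norm_add_lt u2 u3) s3

/-- An integral element of `ℚ₃(θ)` is congruent to its `27`-th power. -/
theorem InT.frob {θ x : Ω} (hθ : θ ^ 3 = θ + 1) (hx : InT θ x) (h1 : ‖x‖ ≤ 1) :
    ‖x ^ 27 - x‖ < 1 := by
  obtain ⟨c0, c1, c2, rfl⟩ := hx
  rw [norm_quad hθ] at h1
  have b0 : ‖c0‖ ≤ 1 := (le_max_left _ _).trans h1
  have b1 : ‖c1‖ ≤ 1 := ((le_max_left _ _).trans (le_max_right _ _)).trans h1
  have b2 : ‖c2‖ ≤ 1 := ((le_max_right _ _).trans (le_max_right _ _)).trans h1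
  have hn := norm_theta hθ
  have n0 : ‖algebraMap ℚ_[3] Ω c0‖ ≤ 1 := by rw [norm_algebraMap']; exact b0
  have n1 : ‖algebraMap ℚ_[3] Ω c1‖ ≤ 1 := by rw [norm_algebraMap']; exact b1
  have n2 : ‖algebraMap ℚ_[3] Ω c2‖ ≤ 1 := by rw [norm_algebraMap']; exact b2
  set g : Ω → Ω := fun t => algebraMap ℚ_[3] Ω c0 + algebraMap ℚ_[3] Ω c1 * t +
    algebraMap ℚ_[3] Ω c2 * t ^ 2 with hg
  have gle : ∀ t : Ω, ‖t‖ ≤ 1 → ‖g t‖ ≤ 1 := fun t ht =>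
    norm_add_le' (norm_add_le' n0 (norm_mul_le_one n1 ht)) (norm_mul_le_one n2
      (norm_pow_le_one ht 2))
  have gcube : ∀ t : Ω, ‖t‖ ≤ 1 → ‖g t ^ 3 - g (t ^ 3)‖ < 1 := fun t ht =>
    cube_quad b0 b1 b2 ht
  have gcongr : ∀ s t : Ω, ‖s‖ ≤ 1 → ‖t‖ ≤ 1 → ‖s - t‖ < 1 → ‖g s - g t‖ < 1 := by
    intro s t hs ht hst
    have e : g s - g t = (s - t) * (algebraMap ℚ_[3] Ω c1 +
        algebraMap ℚ_[3] Ω c2 * (s + t)) := by simp only [hg]; ring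
    rw [e]
    exact norm_mul_lt_one hst (norm_add_le' n1 (norm_mul_le_one n2 (norm_add_le' hs ht)))
  have t1 : ‖θ + 1‖ ≤ 1 := norm_add_le' hn.le (by rw [norm_one])
  have t2 : ‖θ + 2‖ ≤ 1 := norm_add_le' hn.le norm_two_inv.le
  -- step 1
  have s1 : ‖g θ ^ 3 - g (θ + 1)‖ < 1 := by
    have := gcube θ hn.le
    rwa [hθ] at this
  -- step 2
  have s2 : ‖g (θ + 1) ^ 3 - g (θ + 2)‖ < 1 := by
    have h2 := gcube (θ + 1) t1
    have h3 : ‖(θ + 1) ^ 3 - (θ + 2)‖ < 1 := by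
      have e : (θ + 1) ^ 3 - (θ + 2) = 3 * (θ ^ 2 + θ) := by linear_combination hθ
      rw [e]
      exact norm_three_mul_lt (norm_add_le' (norm_pow_le_one hn.le 2) hn.le)
    have h4 := gcongr _ _ (norm_pow_le_one t1 3) t2 h3
    have := norm_add_lt h2 h4
    rwa [sub_add_sub_cancel] at this
  -- step 3
  have s3 : ‖g (θ + 2) ^ 3 - g θ‖ < 1 := by
    have h2 := gcube (θ + 2) t2
    have h3 : ‖(θ + 2) ^ 3 - θ‖ < 1 := by
      have e : (θ + 2) ^ 3 - θ = 3 * (2 * θ ^ 2 + 4 * θ + 3) := by linear_combination hθ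
      rw [e]
      refine norm_three_mul_lt (norm_add_le' (norm_add_le' ?_ ?_) ?_)
      · exact norm_mul_le_one norm_two_inv.le (norm_pow_le_one hn.le 2)
      · refine norm_mul_le_one ?_ hn.le
        simpa using norm_intCast_le (Ω := Ω) 4
      · rw [norm_three]; norm_num
    have h4 := gcongr _ _ (norm_pow_le_one t2 3) hn.le h3
    have := norm_add_lt h2 h4
    rwa [sub_add_sub_cancel] at this
  have g0 := gle θ hn.le
  have g1 := gle _ t1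
  have g2 := gle _ t2
  exact chain27 g0 g1 g2 s1 s2 s3

/-- An integral element of `ℚ₃(ω, θ)` is congruent to its `27`-th power. -/
theorem InF.frob {ω θ x : Ω} (hω : ω ^ 2 + ω + 1 = 0) (hθ : θ ^ 3 = θ + 1) (hx : InF ω θ x)
    (h1 : ‖x‖ ≤ 1) : ‖x ^ 27 - x‖ < 1 := by
  obtain ⟨A, B, hA, hB, rfl⟩ := hx
  have h2 := norm_parts hω hθ hA hB
  rw [h2] at h1
  have hA1 : ‖A‖ ≤ 1 := (le_max_left _ _).trans h1
  have hB1 : ‖(1 - ω) * B‖ ≤ 1 := (le_max_right _ _).trans h1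
  have hB2 : ‖(1 - ω) * B‖ < 1 := by
    refine lt_of_le_of_ne hB1 fun h => ?_
    have hπ := norm_pi_sq hω
    have hB0 : B ≠ 0 := by
      rintro rfl
      rw [mul_zero, norm_zero] at h
      exact zero_ne_one h
    obtain ⟨n, hn⟩ := hB.norm_zpow hθ hB0
    rw [norm_mul, hn] at h
    have h4 : 1 / 3 * ((3 : ℝ) ^ n) ^ 2 = 1 := by rw [← hπ, ← mul_pow, h, one_pow]
    have e2 : (3 : ℝ) ^ (2 * n - 1) = (3 : ℝ) ^ (0 : ℤ) := by
      rw [zpow_sub_one₀ (by norm_num), mul_comm 2 n, zpow_mul, zpow_zero, ← h4]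
      norm_cast
      ring
    have h5 := zpow_right_injective₀ (by norm_num : (0 : ℝ) < 3) (by norm_num) e2
    omega
  have hf := hA.frob hθ hA1
  have hAb : ‖A + (1 - ω) * B‖ ≤ 1 := norm_add_le' hA1 hB1
  have hd : ‖(A + (1 - ω) * B) - A‖ < 1 := by rwa [add_sub_cancel_left]
  have hp := pow27_congr hAb hA1 hd
  generalize (1 - ω) * B = b at *
  generalize (A + b) ^ 27 = X at *
  generalize A ^ 27 = Y at *
  have e : X - (A + b) = (X - Y) + ((Y - A) - b) := by ring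
  rw [e]
  exact norm_add_lt hp (norm_sub_lt hf hB2)

end Pool.Agent.Arb.Loc
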