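import Mathlib

/-!
# Norms on the field `ℚ₃(ω, θ)`, `ω² + ω + 1 = 0`, `θ³ = θ + 1`
-/

set_option linter.unusedSectionVars false

namespace Pool.Agent.Arb.Loc

variable {Ω : Type*} [NormedField Ω] [NormedAlgebra ℚ_[3] Ω] [IsUltrametricDist Ω]

local instance : Fact (Nat.Prime 3) := ⟨Nat.prime_three⟩

/-- `c³ ≡ c` modulo `3` for `3`-adic integers. -/
theorem padic_cube_sub {c : ℚ_[3]} (hc : ‖c‖ ≤ 1) : ‖c ^ 3 - c‖ < 1 := by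
  let d : ℤ_[3] := ⟨c, hc⟩
  have h1 : PadicInt.toZMod (d ^ 3 - d) = 0 := by
    rw [map_sub, map_pow, ZMod.pow_card, sub_self]
  have h2 : d ^ 3 - d ∈ IsLocalRing.maximalIdeal ℤ_[3] := by
    rw [← PadicInt.ker_toZMod]; exact h1
  have h3 := PadicInt.mem_nonunits.1 ((IsLocalRing.mem_maximalIdeal _).1 h2)
  exact h3

theorem norm_three : ‖(3 : Ω)‖ = 1 / 3 := by
  have h : (3 : Ω) = algebraMap ℚ_[3] Ω 3 := (map_ofNat (algebraMap ℚ_[3] Ω) 3).symm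
  rw [h, norm_algebraMap']
  have := Padic.norm_p (p := 3)
  simpa using this

theorem norm_intCast_le (n : ℤ) : ‖(n : Ω)‖ ≤ 1 := by
  have h : (n : Ω) = algebraMap ℚ_[3] Ω n := (map_intCast (algebraMap ℚ_[3] Ω) n).symm
  rw [h, norm_algebraMap']
  exact Padic.norm_int_le_one n

theorem norm_add_lt {x y : Ω} {r : ℝ} (hx : ‖x‖ < r) (hy : ‖y‖ < r) : ‖x + y‖ < r :=
  (IsUltrametricDist.norm_add_le_max x y).trans_lt (max_lt hx hy)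

theorem norm_sub_lt {x y : Ω} {r : ℝ} (hx : ‖x‖ < r) (hy : ‖y‖ < r) : ‖x - y‖ < r := by
  rw [sub_eq_add_neg]
  exact norm_add_lt hx (by rwa [norm_neg])

theorem norm_add_le' {x y : Ω} {r : ℝ} (hx : ‖x‖ ≤ r) (hy : ‖y‖ ≤ r) : ‖x + y‖ ≤ r :=
  (IsUltrametricDist.norm_add_le_max x y).trans (max_le hx hy)

theorem norm_sub_le'' {x y : Ω} {r : ℝ} (hx : ‖x‖ ≤ r) (hy : ‖y‖ ≤ r) : ‖x - y‖ ≤ r := by
  rw [sub_eq_add_neg]
  exact norm_add_le' hx (by rwa [norm_neg])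

theorem norm_mul_le_one {x y : Ω} (hx : ‖x‖ ≤ 1) (hy : ‖y‖ ≤ 1) : ‖x * y‖ ≤ 1 := by
  rw [norm_mul]; exact mul_le_one₀ hx (norm_nonneg _) hy

theorem norm_mul_lt_one {x y : Ω} (hx : ‖x‖ < 1) (hy : ‖y‖ ≤ 1) : ‖x * y‖ < 1 := by
  rw [norm_mul]; exact mul_lt_one_of_nonneg_of_lt_one_left (norm_nonneg _) hx hy

theorem norm_three_mul_lt {x : Ω} (hx : ‖x‖ ≤ 1) : ‖3 * x‖ < 1 :=
  norm_mul_lt_one (by rw [norm_three]; norm_num) hx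

theorem norm_pow_le_one {x : Ω} (hx : ‖x‖ ≤ 1) (n : ℕ) : ‖x ^ n‖ ≤ 1 := by
  rw [norm_pow]; exact pow_le_one₀ (norm_nonneg _) hx

theorem norm_eq_one_of_pow {x : Ω} {n : ℕ} (hn : n ≠ 0) (hx : ‖x ^ n‖ = 1) : ‖x‖ = 1 := by
  rw [norm_pow] at hx
  exact (pow_eq_one_iff_of_nonneg (norm_nonneg _) hn).1 hx

/-- A root of `T³ = T + 1` is a unit. -/
theorem norm_theta {θ : Ω} (hθ : θ ^ 3 = θ + 1) : ‖θ‖ = 1 := by
  have h1 : θ * (θ ^ 2 - 1) = 1 := by linear_combination hθ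
  have h2 : ‖θ‖ ≤ 1 := by
    by_contra hc
    push Not at hc
    have h3 : ‖θ + 1‖ ≤ ‖θ‖ := norm_add_le' le_rfl (by rw [norm_one]; exact hc.le)
    rw [← hθ, norm_pow] at h3
    nlinarith [sq_nonneg ‖θ‖, mul_pos (lt_trans one_pos hc) (lt_trans one_pos hc)]
  have h3 : ‖θ ^ 2 - 1‖ ≤ 1 := norm_sub_le'' (norm_pow_le_one h2 2) (by rw [norm_one])
  have h4 : ‖θ‖ * ‖θ ^ 2 - 1‖ = 1 := by rw [← norm_mul, h1, norm_one]
  nlinarith [norm_nonneg θ, norm_nonneg (θ ^ 2 - 1)]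

/-- The cube of a quadratic expression with `3`-adic integer coefficients. -/
theorem cube_quad {c0 c1 c2 : ℚ_[3]} (h0 : ‖c0‖ ≤ 1) (h1 : ‖c1‖ ≤ 1) (h2 : ‖c2‖ ≤ 1) {x : Ω}
    (hx : ‖x‖ ≤ 1) :
    ‖(algebraMap ℚ_[3] Ω c0 + algebraMap ℚ_[3] Ω c1 * x + algebraMap ℚ_[3] Ω c2 * x ^ 2) ^ 3 -
      (algebraMap ℚ_[3] Ω c0 + algebraMap ℚ_[3] Ω c1 * x ^ 3 +
        algebraMap ℚ_[3] Ω c2 * (x ^ 3) ^ 2)‖ < 1 := by
  set a0 := algebraMap ℚ_[3] Ω c0 with ha0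
  set a1 := algebraMap ℚ_[3] Ω c1 with ha1
  set a2 := algebraMap ℚ_[3] Ω c2 with ha2
  have n0 : ‖a0‖ ≤ 1 := by rw [ha0, norm_algebraMap']; exact h0
  have n1 : ‖a1‖ ≤ 1 := by rw [ha1, norm_algebraMap']; exact h1
  have n2 : ‖a2‖ ≤ 1 := by rw [ha2, norm_algebraMap']; exact h2
  have m0 : ‖a0 ^ 3 - a0‖ < 1 := by
    rw [ha0, ← map_pow, ← map_sub, norm_algebraMap']; exact padic_cube_sub h0
  have m1 : ‖a1 ^ 3 - a1‖ < 1 := by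
    rw [ha1, ← map_pow, ← map_sub, norm_algebraMap']; exact padic_cube_sub h1
  have m2 : ‖a2 ^ 3 - a2‖ < 1 := by
    rw [ha2, ← map_pow, ← map_sub, norm_algebraMap']; exact padic_cube_sub h2
  have hx3 : ‖x ^ 3‖ ≤ 1 := norm_pow_le_one hx 3
  have key : (a0 + a1 * x + a2 * x ^ 2) ^ 3 - (a0 + a1 * x ^ 3 + a2 * (x ^ 3) ^ 2) =
      (a0 ^ 3 - a0) + (a1 ^ 3 - a1) * x ^ 3 + (a2 ^ 3 - a2) * (x ^ 3) ^ 2 +
      3 * ((a0 + a1 * x) * ((a1 * x) + (a2 * x ^ 2)) * (a0 + a2 * x ^ 2)) := by ring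
  rw [key]
  have q1 : ‖a1 * x‖ ≤ 1 := norm_mul_le_one n1 hx
  have q2 : ‖a2 * x ^ 2‖ ≤ 1 := norm_mul_le_one n2 (norm_pow_le_one hx 2)
  refine norm_add_lt (norm_add_lt (norm_add_lt m0 (norm_mul_lt_one m1 hx3))
    (norm_mul_lt_one m2 (norm_pow_le_one hx3 2))) (norm_three_mul_lt ?_)
  exact norm_mul_le_one (norm_mul_le_one (norm_add_le' n0 q1) (norm_add_le' q1 q2))
    (norm_add_le' n0 q2)

theorem norm_two_inv : ‖(2 : Ω)‖ = 1 := by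
  have h1 : ‖(2 : Ω)‖ ≤ 1 := by simpa using norm_intCast_le (Ω := Ω) 2
  by_contra hc
  have h2 : ‖(2 : Ω)‖ < 1 := lt_of_le_of_ne h1 hc
  have h3 : ‖(3 : Ω)‖ < 1 := by rw [norm_three]; norm_num
  have h4 : ‖(3 : Ω) - 2‖ < 1 := norm_sub_lt h3 h2
  have : (3 : Ω) - 2 = 1 := by norm_num
  rw [this, norm_one] at h4
  exact lt_irrefl _ h4

/-- If a quadratic expression in `θ` with integral coefficients is in the maximal ideal then so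
are the coefficients. -/
theorem coeff_lt {θ : Ω} (hθ : θ ^ 3 = θ + 1) {c0 c1 c2 : ℚ_[3]} (h0 : ‖c0‖ ≤ 1) (h1 : ‖c1‖ ≤ 1)
    (h2 : ‖c2‖ ≤ 1)
    (h : ‖algebraMap ℚ_[3] Ω c0 + algebraMap ℚ_[3] Ω c1 * θ + algebraMap ℚ_[3] Ω c2 * θ ^ 2‖ < 1) :
    ‖c0‖ < 1 ∧ ‖c1‖ < 1 ∧ ‖c2‖ < 1 := by
  have hn := norm_theta hθ
  -- the value at `θ + 1`
  have e1 : ‖algebraMap ℚ_[3] Ω c0 + algebraMap ℚ_[3] Ω c1 * (θ + 1) +
      algebraMap ℚ_[3] Ω c2 * (θ + 1) ^ 2‖ < 1 := by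
    have h3 := cube_quad h0 h1 h2 hn.le
    rw [hθ] at h3
    have h4 : ‖(algebraMap ℚ_[3] Ω c0 + algebraMap ℚ_[3] Ω c1 * θ +
        algebraMap ℚ_[3] Ω c2 * θ ^ 2) ^ 3‖ < 1 := by
      rw [norm_pow]
      exact pow_lt_one₀ (norm_nonneg _) h (by norm_num)
    have h5 := norm_sub_lt h4 h3
    rwa [sub_sub_cancel] at h5
  -- the value at `θ + 2`
  have hn1 : ‖θ + 1‖ ≤ 1 := norm_add_le' hn.le (by rw [norm_one])
  have e2 : ‖algebraMap ℚ_[3] Ω c0 + algebraMap ℚ_[3] Ω c1 * (θ + 2) +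
      algebraMap ℚ_[3] Ω c2 * (θ + 2) ^ 2‖ < 1 := by
    have h3 := cube_quad h0 h1 h2 hn1
    have h4 : ‖(algebraMap ℚ_[3] Ω c0 + algebraMap ℚ_[3] Ω c1 * (θ + 1) +
        algebraMap ℚ_[3] Ω c2 * (θ + 1) ^ 2) ^ 3‖ < 1 := by
      rw [norm_pow]
      exact pow_lt_one₀ (norm_nonneg _) e1 (by norm_num)
    have h5 := norm_sub_lt h4 h3
    rw [sub_sub_cancel] at h5
    -- `(θ + 1)³ = θ + 2 + 3 t`
    set t : Ω := θ ^ 2 + θ with ht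
    have ht1 : ‖t‖ ≤ 1 := norm_add_le' (norm_pow_le_one hn.le 2) hn.le
    have hc3 : (θ + 1) ^ 3 = θ + 2 + 3 * t := by rw [ht]; linear_combination hθ
    have n1 : ‖algebraMap ℚ_[3] Ω c1‖ ≤ 1 := by rw [norm_algebraMap']; exact h1
    have n2 : ‖algebraMap ℚ_[3] Ω c2‖ ≤ 1 := by rw [norm_algebraMap']; exact h2
    have hn2 : ‖θ + 2‖ ≤ 1 := norm_add_le' hn.le norm_two_inv.le
    have h6 : algebraMap ℚ_[3] Ω c0 + algebraMap ℚ_[3] Ω c1 * (θ + 2) +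
        algebraMap ℚ_[3] Ω c2 * (θ + 2) ^ 2 =
        (algebraMap ℚ_[3] Ω c0 + algebraMap ℚ_[3] Ω c1 * (θ + 1) ^ 3 +
        algebraMap ℚ_[3] Ω c2 * ((θ + 1) ^ 3) ^ 2) -
        3 * (algebraMap ℚ_[3] Ω c1 * t + algebraMap ℚ_[3] Ω c2 *
          (t * ((θ + 2) + (θ + 1) ^ 3))) := by
      rw [hc3]; ring
    rw [h6]
    refine norm_sub_lt h5 (norm_three_mul_lt (norm_add_le' (norm_mul_le_one n1 ht1)
      (norm_mul_le_one n2 (norm_mul_le_one ht1 (norm_add_le' hn2 (norm_pow_le_one hn1 3))))))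
  -- second difference
  have d2 : ‖algebraMap ℚ_[3] Ω c2‖ < 1 := by
    have h7 : (2 : Ω) * algebraMap ℚ_[3] Ω c2 =
        ((algebraMap ℚ_[3] Ω c0 + algebraMap ℚ_[3] Ω c1 * (θ + 2) +
          algebraMap ℚ_[3] Ω c2 * (θ + 2) ^ 2) -
        (algebraMap ℚ_[3] Ω c0 + algebraMap ℚ_[3] Ω c1 * (θ + 1) +
          algebraMap ℚ_[3] Ω c2 * (θ + 1) ^ 2)) -
        ((algebraMap ℚ_[3] Ω c0 + algebraMap ℚ_[3] Ω c1 * (θ + 1) +
          algebraMap ℚ_[3] Ω c2 * (θ + 1) ^ 2) -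
        (algebraMap ℚ_[3] Ω c0 + algebraMap ℚ_[3] Ω c1 * θ +
          algebraMap ℚ_[3] Ω c2 * θ ^ 2)) := by ring
    have h8 : ‖(2 : Ω) * algebraMap ℚ_[3] Ω c2‖ < 1 := by
      rw [h7]; exact norm_sub_lt (norm_sub_lt e2 e1) (norm_sub_lt e1 h)
    rwa [norm_mul, norm_two_inv, one_mul] at h8
  have d1 : ‖algebraMap ℚ_[3] Ω c1‖ < 1 := by
    have h7 : algebraMap ℚ_[3] Ω c1 =
        ((algebraMap ℚ_[3] Ω c0 + algebraMap ℚ_[3] Ω c1 * (θ + 1) +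
          algebraMap ℚ_[3] Ω c2 * (θ + 1) ^ 2) -
        (algebraMap ℚ_[3] Ω c0 + algebraMap ℚ_[3] Ω c1 * θ +
          algebraMap ℚ_[3] Ω c2 * θ ^ 2)) - algebraMap ℚ_[3] Ω c2 * (2 * θ + 1) := by ring
    rw [h7]
    refine norm_sub_lt (norm_sub_lt e1 h) (norm_mul_lt_one d2 (norm_add_le' ?_ (by rw [norm_one])))
    exact norm_mul_le_one norm_two_inv.le hn.le
  have d0 : ‖algebraMap ℚ_[3] Ω c0‖ < 1 := by
    have h7 : algebraMap ℚ_[3] Ω c0 =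
        (algebraMap ℚ_[3] Ω c0 + algebraMap ℚ_[3] Ω c1 * θ +
          algebraMap ℚ_[3] Ω c2 * θ ^ 2) - algebraMap ℚ_[3] Ω c1 * θ -
          algebraMap ℚ_[3] Ω c2 * θ ^ 2 := by ring
    rw [h7]
    exact norm_sub_lt (norm_sub_lt h (norm_mul_lt_one d1 hn.le))
      (norm_mul_lt_one d2 (norm_pow_le_one hn.le 2))
  rw [norm_algebraMap'] at d0 d1 d2
  exact ⟨d0, d1, d2⟩

/-- Orthogonality of `1, θ, θ²`. -/
theorem norm_quad {θ : Ω} (hθ : θ ^ 3 = θ + 1) (c0 c1 c2 : ℚ_[3]) :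
    ‖algebraMap ℚ_[3] Ω c0 + algebraMap ℚ_[3] Ω c1 * θ + algebraMap ℚ_[3] Ω c2 * θ ^ 2‖ =
      max ‖c0‖ (max ‖c1‖ ‖c2‖) := by
  have hn := norm_theta hθ
  -- upper bound
  have hle : ∀ c0 c1 c2 : ℚ_[3],
      ‖algebraMap ℚ_[3] Ω c0 + algebraMap ℚ_[3] Ω c1 * θ + algebraMap ℚ_[3] Ω c2 * θ ^ 2‖ ≤
      max ‖c0‖ (max ‖c1‖ ‖c2‖) := by
    intro c0 c1 c2
    refine norm_add_le' (norm_add_le' ?_ ?_) ?_
    · rw [norm_algebraMap']; exact le_max_left _ _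
    · rw [norm_mul, norm_algebraMap', hn, mul_one]
      exact (le_max_left _ _).trans (le_max_right _ _)
    · rw [norm_mul, norm_algebraMap', norm_pow, hn, one_pow, mul_one]
      exact (le_max_right _ _).trans (le_max_right _ _)
  refine le_antisymm (hle c0 c1 c2) ?_
  -- choose a coefficient of maximal norm
  obtain ⟨d, hd, hd'⟩ : ∃ d : ℚ_[3], (d = c0 ∨ d = c1 ∨ d = c2) ∧
      ‖d‖ = max ‖c0‖ (max ‖c1‖ ‖c2‖) := by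
    rcases max_choice ‖c0‖ (max ‖c1‖ ‖c2‖) with h | h
    · exact ⟨c0, Or.inl rfl, h.symm⟩
    · rcases max_choice ‖c1‖ ‖c2‖ with h' | h'
      · exact ⟨c1, Or.inr (Or.inl rfl), by rw [h, h']⟩
      · exact ⟨c2, Or.inr (Or.inr rfl), by rw [h, h']⟩
  by_cases hd0 : d = 0
  · rw [← hd', hd0, norm_zero]; exact norm_nonneg _
  by_contra hc
  push Not at hc
  rw [← hd'] at hc
  have hdn : 0 < ‖d‖ := norm_pos_iff.2 hd0
  have hq : ∀ c : ℚ_[3], ‖c‖ ≤ ‖d‖ → ‖c / d‖ ≤ 1 := fun c h => by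
    rw [norm_div]; exact (div_le_one hdn).2 h
  have b0 : ‖c0‖ ≤ ‖d‖ := by rw [hd']; exact le_max_left _ _
  have b1 : ‖c1‖ ≤ ‖d‖ := by rw [hd']; exact (le_max_left _ _).trans (le_max_right _ _)
  have b2 : ‖c2‖ ≤ ‖d‖ := by rw [hd']; exact (le_max_right _ _).trans (le_max_right _ _)
  have h := coeff_lt hθ (hq c0 b0) (hq c1 b1) (hq c2 b2) (by
    have h9 : algebraMap ℚ_[3] Ω (c0 / d) + algebraMap ℚ_[3] Ω (c1 / d) * θ +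
        algebraMap ℚ_[3] Ω (c2 / d) * θ ^ 2 =
        (algebraMap ℚ_[3] Ω c0 + algebraMap ℚ_[3] Ω c1 * θ +
        algebraMap ℚ_[3] Ω c2 * θ ^ 2) / algebraMap ℚ_[3] Ω d := by
      rw [map_div₀, map_div₀, map_div₀]; ring
    rw [h9, norm_div, norm_algebraMap']
    exact (div_lt_one hdn).2 hc)
  have h1 : ‖d / d‖ < 1 := by
    rcases hd with hd | hd | hd
    · nth_rewrite 1 [hd]; exact h.1
    · nth_rewrite 1 [hd]; exact h.2.1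
    · nth_rewrite 1 [hd]; exact h.2.2
  rw [div_self hd0, norm_one] at h1
  exact lt_irrefl _ h1

end Pool.Agent.Arb.Loc
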